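import Mathlib

/-!
# [PS75-CNT] counting subset sums (Pisier problem, MP_105f43_nt)

Proof. Let `V = G.biUnion fun e => (c e).support`, `m = card V`, `D v = ∑_{e ∈ G} |c e v|` for `v ∈ V`; `∑_{v ∈ V} D v ≤ k card G`. The map
`s ↦ (v ↦ ∑_{e ∈ s} c e v)` from the subsets of `G` to the functions `V → ℤ` is injective by `hind` (the sum `∑_{e ∈ s} value (c e)` is determined by it), and its values lie in
`∏_{v ∈ V} [- D v, D v]`. So `2^(card G) ≤ ∏_{v ∈ V} (2 D v + 1)`.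
For real `y = D / (2 k) ≥ 0`: `2 D + 1 = 4 k y + 1 ≤ (6 k + 1) (1 + y log 2) ≤ (6 k + 1) 2^y` (`log 2 ≥ 0.69`, `Real.add_one_le_exp`), so
`2^(card G) ≤ (6 k + 1)^m 2^(∑ D / (2 k)) ≤ (6 k + 1)^m 2^(card G / 2)`, hence `2^(card G / 2) ≤ (6 k + 1)^m ≤ 2^((6 k + 1) m)` and `card G ≤ 2 (6 k + 1) m`.
-/

set_option autoImplicit false

namespace PS75

private theorem one_aux (k : ℕ) (hk : 1 ≤ k) (D : ℝ) (hD : 0 ≤ D) :
    2 * D + 1 ≤ (6 * k + 1) * (2 : ℝ) ^ (D / (2 * k)) := by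
  have hk' : (1 : ℝ) ≤ k := by exact_mod_cast hk
  have hk0 : (0 : ℝ) < k := by linarith
  obtain ⟨y, hy⟩ : ∃ y : ℝ, y = D / (2 * k) := ⟨_, rfl⟩
  have hy0 : 0 ≤ y := by rw [hy]; positivity
  have hDy : D = 2 * k * y := by rw [hy]; field_simp
  rw [← hy, hDy]
  have h1 : 1 + 0.69 * y ≤ (2 : ℝ) ^ y := by
    rw [Real.rpow_def_of_pos (by norm_num)]
    have h2 := Real.add_one_le_exp (Real.log 2 * y)
    have h3 := Real.log_two_gt_d9
    nlinarith
  have h4 : (6 * (k : ℝ) + 1) * (1 + 0.69 * y) ≤ (6 * k + 1) * (2 : ℝ) ^ y :=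
    mul_le_mul_of_nonneg_left h1 (by positivity)
  nlinarith [mul_nonneg hk0.le hy0]

theorem count (lam : ℕ → ℤ) (k : ℕ) (hk : 1 ≤ k) (G : Finset ℕ) (c : ℕ → ℕ →₀ ℤ)
    (hw : ∀ e, ∑ i ∈ (c e).support, |c e i| ≤ (k : ℤ))
    (hind : ∀ s : Finset ℕ, s ⊆ G → ∀ t : Finset ℕ, t ⊆ G →
      ∑ e ∈ s, (∑ i ∈ (c e).support, c e i * lam i) = ∑ e ∈ t, (∑ i ∈ (c e).support, c e i * lam i) → s = t) :
    G.card ≤ 2 * (6 * k + 1) * (G.biUnion fun e => (c e).support).card := by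
  classical
  obtain ⟨V, hV⟩ : ∃ V, V = G.biUnion fun e => (c e).support := ⟨_, rfl⟩
  rw [← hV]
  have hsub : ∀ e ∈ G, (c e).support ⊆ V := fun e he => by
    rw [hV]
    exact Finset.subset_biUnion_of_mem (fun e => (c e).support) he
  have hext : ∀ e ∈ G, ∀ F : ℕ → ℤ → ℤ, (∀ i, F i 0 = 0) →
      ∑ i ∈ (c e).support, F i (c e i) = ∑ i ∈ V, F i (c e i) := fun e he F hF => by
    refine Finset.sum_subset (hsub e he) fun i _ hi => ?_
    rw [Finsupp.notMem_support_iff.1 hi, hF]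
  let D : ℕ → ℤ := fun v => ∑ e ∈ G, |c e v|
  have hD0 : ∀ v, 0 ≤ D v := fun v => Finset.sum_nonneg fun e _ => abs_nonneg _
  have hDsum : ∑ v ∈ V, D v ≤ k * G.card := by
    calc ∑ v ∈ V, D v = ∑ e ∈ G, ∑ v ∈ V, |c e v| := Finset.sum_comm
      _ = ∑ e ∈ G, ∑ v ∈ (c e).support, |c e v| :=
          Finset.sum_congr rfl fun e he => (hext e he (fun _ x => |x|) (fun _ => abs_zero)).symm
      _ ≤ ∑ _e ∈ G, (k : ℤ) := Finset.sum_le_sum fun e _ => hw e
      _ = k * G.card := by rw [Finset.sum_const, nsmul_eq_mul, mul_comm]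
  -- counting
  have hcard : G.powerset.card ≤
      (Fintype.piFinset fun v : V => Finset.Icc (-D v) (D v)).card := by
    refine Finset.card_le_card_of_injOn (fun s => fun v : V => ∑ e ∈ s, c e v) ?_ ?_
    · intro s hs
      have hs' : s ⊆ G := Finset.mem_powerset.1 (Finset.mem_coe.1 hs)
      rw [Finset.mem_coe, Fintype.mem_piFinset]
      intro v
      rw [Finset.mem_Icc, ← abs_le]
      calc |∑ e ∈ s, c e v| ≤ ∑ e ∈ s, |c e v| := Finset.abs_sum_le_sum_abs _ _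
        _ ≤ ∑ e ∈ G, |c e v| :=
            Finset.sum_le_sum_of_subset_of_nonneg hs' fun e _ _ => abs_nonneg _
    · intro s hs t ht hst
      have hs' : s ⊆ G := Finset.mem_powerset.1 (Finset.mem_coe.1 hs)
      have ht' : t ⊆ G := Finset.mem_powerset.1 (Finset.mem_coe.1 ht)
      have key : ∀ u : Finset ℕ, u ⊆ G → ∑ e ∈ u, (∑ i ∈ (c e).support, c e i * lam i) =
          ∑ i ∈ V, (∑ e ∈ u, c e i) * lam i := by
        intro u hu
        calc ∑ e ∈ u, (∑ i ∈ (c e).support, c e i * lam i)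
            = ∑ e ∈ u, ∑ i ∈ V, c e i * lam i :=
              Finset.sum_congr rfl fun e he =>
                hext e (hu he) (fun i x => x * lam i) (fun _ => zero_mul _)
          _ = ∑ i ∈ V, ∑ e ∈ u, c e i * lam i := Finset.sum_comm
          _ = _ := Finset.sum_congr rfl fun i _ => by rw [Finset.sum_mul]
      refine hind s hs' t ht' ?_
      rw [key s hs', key t ht']
      refine Finset.sum_congr rfl fun i hi => ?_
      have := congrFun hst ⟨i, hi⟩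
      simp only at this
      rw [this]
  rw [Finset.card_powerset, Fintype.card_piFinset] at hcard
  -- real estimates
  have hk' : (1 : ℝ) ≤ k := by exact_mod_cast hk
  have h1 : (2 : ℝ) ^ G.card ≤ ∏ v : V, (2 * (D v : ℝ) + 1) := by
    have h2 : ((2 ^ G.card : ℕ) : ℝ) ≤
        ((∏ v : V, (Finset.Icc (-D v) (D v)).card : ℕ) : ℝ) := by exact_mod_cast hcard
    push_cast at h2
    refine h2.trans (le_of_eq (Finset.prod_congr rfl fun v _ => ?_))
    rw [Int.card_Icc]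
    have h3 : (((D v + 1 - -D v).toNat : ℤ) : ℝ) = ((D v + 1 - -D v : ℤ) : ℝ) := by
      rw [Int.toNat_of_nonneg]
      have := hD0 v
      omega
    have h4 : (((D v + 1 - -D v).toNat : ℕ) : ℝ) = (((D v + 1 - -D v).toNat : ℤ) : ℝ) := by
      norm_cast
    rw [h4, h3]
    push_cast
    ring
  have h5 : ∏ v : V, (2 * (D v : ℝ) + 1) ≤
      ∏ v : V, ((6 * (k : ℝ) + 1) * (2 : ℝ) ^ ((D v : ℝ) / (2 * k))) := by
    refine Finset.prod_le_prod (fun v _ => ?_) fun v _ => ?_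
    · have : (0 : ℝ) ≤ D v := by exact_mod_cast hD0 v
      positivity
    · exact one_aux k hk _ (by exact_mod_cast hD0 v)
  have h6 : ∏ v : V, ((6 * (k : ℝ) + 1) * (2 : ℝ) ^ ((D v : ℝ) / (2 * k))) =
      (6 * (k : ℝ) + 1) ^ V.card * (2 : ℝ) ^ (∑ v : V, (D v : ℝ) / (2 * k)) := by
    rw [Finset.prod_mul_distrib, Finset.prod_const, Finset.card_univ, Fintype.card_coe,
      ← Real.rpow_sum_of_pos (by norm_num)]
  have h7 : ∑ v : V, (D v : ℝ) / (2 * k) ≤ (G.card : ℝ) / 2 := by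
    rw [← Finset.sum_div, div_le_div_iff₀ (by positivity) (by norm_num)]
    have h8 : ∑ v : V, (D v : ℝ) = ((∑ v ∈ V, D v : ℤ) : ℝ) := by
      push_cast
      exact Finset.sum_coe_sort V (fun v => (D v : ℝ))
    have h9 : ((∑ v ∈ V, D v : ℤ) : ℝ) ≤ ((k * G.card : ℤ) : ℝ) := by exact_mod_cast hDsum
    rw [h8]
    push_cast at h9 ⊢
    nlinarith
  have h10 : (2 : ℝ) ^ (∑ v : V, (D v : ℝ) / (2 * k)) ≤ (2 : ℝ) ^ ((G.card : ℝ) / 2) :=
    Real.rpow_le_rpow_of_exponent_le (by norm_num) h7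
  have h11 : (2 : ℝ) ^ (G.card : ℝ) ≤
      (6 * (k : ℝ) + 1) ^ V.card * (2 : ℝ) ^ ((G.card : ℝ) / 2) := by
    rw [Real.rpow_natCast]
    refine h1.trans (h5.trans ?_)
    rw [h6]
    exact mul_le_mul_of_nonneg_left h10 (by positivity)
  have h12 : (2 : ℝ) ^ ((G.card : ℝ) / 2) ≤ (6 * (k : ℝ) + 1) ^ V.card := by
    have h13 : (2 : ℝ) ^ (G.card : ℝ) =
        (2 : ℝ) ^ ((G.card : ℝ) / 2) * (2 : ℝ) ^ ((G.card : ℝ) / 2) := by
      rw [← Real.rpow_add (by norm_num)]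
      congr 1
      ring
    rw [h13] at h11
    exact le_of_mul_le_mul_right h11 (Real.rpow_pos_of_pos (by norm_num) _)
  have h14 : (6 * (k : ℝ) + 1) ^ V.card ≤ (2 : ℝ) ^ (((6 * k + 1) * V.card : ℕ) : ℝ) := by
    rw [Real.rpow_natCast, pow_mul]
    refine pow_le_pow_left₀ (by positivity) ?_ _
    have h15 : (6 * k + 1 : ℕ) ≤ 2 ^ (6 * k + 1) := Nat.lt_two_pow_self.le
    exact_mod_cast h15
  have h16 : (G.card : ℝ) / 2 ≤ (((6 * k + 1) * V.card : ℕ) : ℝ) :=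
    (Real.rpow_le_rpow_left_iff (by norm_num)).1 (h12.trans h14)
  have h17 : (G.card : ℝ) ≤ ((2 * (6 * k + 1) * V.card : ℕ) : ℝ) := by
    push_cast at h16 ⊢
    linarith
  exact_mod_cast h17

end PS75
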