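import Mathlib

/-!
# [PS75-COL] colouring a graph with bounded out-degree

Every finite set `F` of natural numbers contains an element `e` with at most `2 d` neighbours (`e'` with `R e e'` or `R e' e`, `e' ≠ e`) in `F`: the number of arcs inside
`F` is at most `d card F`. So finite sets can be coloured by induction, and the infinite case follows by compactness:
`SimpleGraph.nonempty_hom_of_forall_finite_subgraph_hom` (de Bruijn-Erdos) with the complete graph on `Fin (2 d + 1)` (Mathlib.Combinatorics.SimpleGraph.Finsubgraph), or Tychonoff.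
-/

set_option autoImplicit false

namespace PS75

/-- the finite case -/
private theorem exists_col_fin (R : ℕ → ℕ → Prop) (d : ℕ)
    (h : ∀ e, ∃ s : Finset ℕ, s.card ≤ d ∧ ∀ e', R e e' → e' ∈ s) (k : ℕ) :
    ∀ F : Finset ℕ, F.card = k → ∃ χ : ℕ → Fin (2 * d + 1), ∀ e ∈ F, ∀ e' ∈ F, e ≠ e' → R e e' →
      χ e ≠ χ e' := by
  classical
  induction k with
  | zero =>
    intro F hF
    rw [Finset.card_eq_zero] at hF
    subst hF
    exact ⟨fun _ => 0, fun e he => absurd he (Finset.notMem_empty e)⟩
  | succ k ih =>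
    intro F hF
    -- out- and in-neighbours inside F
    obtain ⟨e₀, he₀, hdeg⟩ : ∃ e ∈ F, (F.filter fun e' => R e e').card
        + (F.filter fun e' => R e' e).card ≤ 2 * d := by
      by_contra hcon
      push Not at hcon
      have h1 : ∑ e ∈ F, (F.filter fun e' => R e e').card ≤ ∑ e ∈ F, d := by
        refine Finset.sum_le_sum fun e _ => ?_
        obtain ⟨s, hs, hs'⟩ := h e
        refine (Finset.card_le_card fun x hx => ?_).trans hs
        exact hs' x (Finset.mem_filter.1 hx).2
      have h2 : ∑ e ∈ F, (F.filter fun e' => R e' e).card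
          = ∑ e ∈ F, (F.filter fun e' => R e e').card := by
        simp only [Finset.card_filter]
        exact Finset.sum_comm
      have h3 : ∑ e ∈ F, (2 * d + 1) ≤ ∑ e ∈ F, ((F.filter fun e' => R e e').card
          + (F.filter fun e' => R e' e).card) :=
        Finset.sum_le_sum fun e he => hcon e he
      have h4 : ∑ e ∈ F, ((F.filter fun e' => R e e').card + (F.filter fun e' => R e' e).card)
          ≤ (k + 1) * d + (k + 1) * d := by
        rw [Finset.sum_add_distrib, h2]
        rw [Finset.sum_const, smul_eq_mul, hF] at h1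
        exact Nat.add_le_add h1 h1
      rw [Finset.sum_const, smul_eq_mul, hF] at h3
      nlinarith
    obtain ⟨χ, hχ⟩ := ih (F.erase e₀) (by rw [Finset.card_erase_of_mem he₀, hF]; rfl)
    obtain ⟨N, hN⟩ : ∃ N : Finset ℕ, N = ((F.filter fun e' => R e₀ e') ∪
        (F.filter fun e' => R e' e₀)) := ⟨_, rfl⟩
    have hNc : (N.image χ).card < (Finset.univ : Finset (Fin (2 * d + 1))).card := by
      rw [Finset.card_univ, Fintype.card_fin]
      refine Nat.lt_succ_of_le (Finset.card_image_le.trans ?_)
      rw [hN]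
      exact (Finset.card_union_le _ _).trans hdeg
    obtain ⟨c, -, hc⟩ := Finset.exists_mem_notMem_of_card_lt_card hNc
    have hc' : ∀ e ∈ N, χ e ≠ c := fun e he hec => hc (Finset.mem_image.2 ⟨e, he, hec⟩)
    refine ⟨Function.update χ e₀ c, fun e he e' he' hne hR => ?_⟩
    by_cases h1 : e = e₀
    · subst h1
      rw [Function.update_self, Function.update_of_ne hne.symm]
      refine (hc' e' ?_).symm
      rw [hN]
      exact Finset.mem_union_left _ (Finset.mem_filter.2 ⟨he', hR⟩)
    · by_cases h2 : e' = e₀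
      · subst h2
        rw [Function.update_self, Function.update_of_ne h1]
        refine hc' e ?_
        rw [hN]
        exact Finset.mem_union_right _ (Finset.mem_filter.2 ⟨he, hR⟩)
      · rw [Function.update_of_ne h1, Function.update_of_ne h2]
        exact hχ e (Finset.mem_erase.2 ⟨h1, he⟩) e' (Finset.mem_erase.2 ⟨h2, he'⟩) hne hR

theorem exists_col (R : ℕ → ℕ → Prop) (d : ℕ) (h : ∀ e, ∃ s : Finset ℕ, s.card ≤ d ∧ ∀ e', R e e' → e' ∈ s) :
    ∃ χ : ℕ → Fin (2 * d + 1), ∀ e e', e ≠ e' → R e e' → χ e ≠ χ e' := by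
  classical
  have hfin := exists_col_fin R d h
  obtain ⟨G, hG⟩ : ∃ G : SimpleGraph ℕ, G = SimpleGraph.fromRel R := ⟨_, rfl⟩
  have hadj : ∀ a b, G.Adj a b → a ≠ b ∧ (R a b ∨ R b a) := by
    intro a b hab
    rw [hG, SimpleGraph.fromRel_adj] at hab
    exact hab
  have key : Nonempty (G →g (⊤ : SimpleGraph (Fin (2 * d + 1)))) := by
    refine SimpleGraph.nonempty_hom_of_forall_finite_subgraph_hom fun G' hG' => ?_
    have h1 := hfin _ hG'.toFinset rfl
    refine ⟨fun v => h1.choose v.1, fun {u v} huv => ?_⟩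
    have h2 := h1.choose_spec
    have h3 := hadj u.1 v.1 (G'.adj_sub huv)
    rw [SimpleGraph.top_adj]
    rcases h3.2 with h4 | h4
    · exact h2 _ (hG'.mem_toFinset.2 u.2) _ (hG'.mem_toFinset.2 v.2) h3.1 h4
    · exact (h2 _ (hG'.mem_toFinset.2 v.2) _ (hG'.mem_toFinset.2 u.2) h3.1.symm h4).symm
  obtain ⟨f⟩ := key
  refine ⟨f, fun e e' hne hR => ?_⟩
  have h1 : G.Adj e e' := by
    rw [hG, SimpleGraph.fromRel_adj]
    exact ⟨hne, Or.inl hR⟩
  exact (SimpleGraph.top_adj _ _).1 (f.map_rel h1)

end PS75
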