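import Pool.Agent.PS75.Red

/-!
# [PS75-IND] independence of a class

Proof. Suppose `∑_s x = ∑_t x`, `s ≠ t`, where `x e = ∑ c e i * lam i`. Let `F = (s \ t) ∪ (t \ s)`, nonempty, `ε e = 1` on `s \ t`, `-1` on `t \ s`; `∑_{e ∈ F} ε e x e = 0`.
Let `e' ∈ F`, `v = v e'`. For `e ∈ F`, `e ≠ e'`: `x e = y e + (multiple of lam (v+1))` with `y e = ∑_{i ∈ supp (c e), i ≤ v} c e i * lam i`, and
`|y e| ≤ ∑_{i ∈ supp (c e), i ≤ v} |c e i| lam i ≤ lam v ∑_{i ∈ supp (c e), i ≤ v} |c e i| 2^(-(v - i))` where all these `i` satisfy `i + L ≤ v` (`hsep`). So by `heavy` for `x e'`: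
`3^(-k) lam v ≤ |x e' - (multiple of lam (v+1))| = |∑_{e ≠ e'} ± y e|`, thus `3^(-k) ≤ ∑_{e ∈ F, e ≠ e'} ∑_{i ∈ supp (c e), i + L ≤ v e'} |c e i| 2^(-(v e' - i))`.
Sum over `e' ∈ F` and exchange: for fixed `e`, `i` the values `v e'` are different (`hinj`), so `∑_{e'} 2^(-(v e' - i)) ≤ ∑_{j ≥ L} 2^(-j) = 2 2^(-L)`. Hence
`3^(-k) card F ≤ 2 2^(-L) k card F`, a contradiction to `hL`.
-/

set_option autoImplicit false

namespace PS75

private lemma geo (L n : ℕ) : ∑ j ∈ Finset.Ico L n, (1 / 2 : ℝ) ^ j ≤ 2 * (1 / 2) ^ L := by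
  rw [Finset.sum_Ico_eq_sum_range]
  have h1 : ∑ k ∈ Finset.range (n - L), (1 / 2 : ℝ) ^ (L + k) = (1 / 2) ^ L * ∑ k ∈ Finset.range (n - L), (1 / 2 : ℝ) ^ k := by
    rw [Finset.mul_sum]
    exact Finset.sum_congr rfl fun k _ => pow_add _ _ _
  rw [h1, geom_sum_eq (by norm_num)]
  have h2 : (0 : ℝ) ≤ (1 / 2) ^ (n - L) := by positivity
  have h3 : (0 : ℝ) ≤ (1 / 2) ^ L := by positivity
  have h4 : ((1 / 2 : ℝ) ^ (n - L) - 1) / (1 / 2 - 1) ≤ 2 := by
    rw [div_le_iff_of_neg (by norm_num)]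
    linarith
  calc (1 / 2 : ℝ) ^ L * (((1 / 2 : ℝ) ^ (n - L) - 1) / (1 / 2 - 1)) ≤ (1 / 2) ^ L * 2 :=
        mul_le_mul_of_nonneg_left h4 h3
    _ = 2 * (1 / 2) ^ L := by ring

private lemma geo_inj (L i : ℕ) (G : Finset ℕ) (v : ℕ → ℕ) (hinj : ∀ e ∈ G, ∀ e' ∈ G, v e = v e' → e = e')
    (hG : ∀ e ∈ G, i + L ≤ v e) : ∑ e ∈ G, (1 / 2 : ℝ) ^ (v e - i) ≤ 2 * (1 / 2) ^ L := by
  have h1 : ∑ e ∈ G, (1 / 2 : ℝ) ^ (v e - i) = ∑ j ∈ G.image (fun e => v e - i), (1 / 2 : ℝ) ^ j := by
    rw [Finset.sum_image]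
    intro a ha b hb hab
    have h2 := hG a ha
    have h3 := hG b hb
    simp only at hab
    exact hinj a ha b hb (by omega)
  rw [h1]
  refine le_trans ?_ (geo L ((G.image (fun e => v e - i)).sup id + 1))
  apply Finset.sum_le_sum_of_subset_of_nonneg
  · intro j hj
    rw [Finset.mem_Ico]
    constructor
    · obtain ⟨e, he, rfl⟩ := Finset.mem_image.1 hj
      have := hG e he
      omega
    · have : id j ≤ (G.image (fun e => v e - i)).sup id := Finset.le_sup hj
      simp only [id] at this ⊢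
      omega
  · intro j _ _
    positivity

private lemma lam_pow (lam r : ℕ → ℤ) (hpos : ∀ i, 0 < lam i) (hr : ∀ i, 2 ≤ r i)
    (hlam : ∀ i, lam (i + 1) = r i * lam i) (i d : ℕ) : (lam i : ℝ) ≤ lam (i + d) * (1 / 2) ^ d := by
  induction d with
  | zero => simp
  | succ d ih =>
    have h1 : (2 : ℝ) * lam (i + d) ≤ lam (i + (d + 1)) := by
      have h2 : 2 * lam (i + d) ≤ lam (i + (d + 1)) := by
        rw [← add_assoc, hlam]
        exact mul_le_mul_of_nonneg_right (hr _) (hpos _).le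
      exact_mod_cast h2
    have h3 : (0 : ℝ) ≤ (1 / 2) ^ d := by positivity
    have h4 := mul_le_mul_of_nonneg_right h1 h3
    rw [pow_succ]
    linarith

private lemma lam_dvd (lam r : ℕ → ℤ) (hlam : ∀ i, lam (i + 1) = r i * lam i) {i j : ℕ} (hij : i ≤ j) :
    lam i ∣ lam j := by
  induction j, hij using Nat.le_induction with
  | base => exact dvd_refl _
  | succ j _ ih =>
    rw [hlam]
    exact Dvd.dvd.mul_left ih _

theorem indep (lam r : ℕ → ℤ) (hpos : ∀ i, 0 < lam i) (hr : ∀ i, 2 ≤ r i) (hlam : ∀ i, lam (i + 1) = r i * lam i)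
    (k L : ℕ) (hL : 2 * (k : ℝ) * (1 / 2) ^ L < (1 / 3) ^ k) (C : Set ℕ) (c : ℕ → ℕ →₀ ℤ) (v : ℕ → ℕ)
    (hc : ∀ e i, 2 * |c e i| ≤ r i + 1) (hw : ∀ e, ∑ i ∈ (c e).support, |c e i| ≤ (k : ℤ))
    (hv : ∀ e ∈ C, v e ∈ (c e).support) (hinj : ∀ e ∈ C, ∀ e' ∈ C, v e = v e' → e = e')
    (hsep : ∀ e ∈ C, ∀ e' ∈ C, e ≠ e' → ∀ i ∈ (c e).support, i ≤ v e' → i + L ≤ v e')
    (s t : Finset ℕ) (hs : ∀ e ∈ s, e ∈ C) (ht : ∀ e ∈ t, e ∈ C)
    (h : ∑ e ∈ s, (∑ i ∈ (c e).support, c e i * lam i) = ∑ e ∈ t, (∑ i ∈ (c e).support, c e i * lam i)) :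
    s = t := by
  classical
  by_contra hne
  set x : ℕ → ℤ := fun e => ∑ i ∈ (c e).support, c e i * lam i with hx
  set F : Finset ℕ := (s \ t) ∪ (t \ s) with hF
  have hFne : F.Nonempty := by
    rw [Finset.nonempty_iff_ne_empty]
    intro h0
    apply hne
    rw [hF, Finset.union_eq_empty, Finset.sdiff_eq_empty_iff_subset, Finset.sdiff_eq_empty_iff_subset] at h0
    exact Finset.Subset.antisymm h0.1 h0.2
  have hFC : ∀ e ∈ F, e ∈ C := by
    intro e he
    rw [hF, Finset.mem_union, Finset.mem_sdiff, Finset.mem_sdiff] at he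
    rcases he with he | he
    · exact hs e he.1
    · exact ht e he.1
  set ε : ℕ → ℤ := fun e => if e ∈ s then 1 else -1 with hε
  have hε2 : ∀ e, ε e * ε e = 1 := by
    intro e
    simp only [hε]
    split_ifs <;> norm_num
  have hεabs : ∀ e, |ε e| = 1 := by
    intro e
    simp only [hε]
    split_ifs <;> norm_num
  have hsum : ∑ e ∈ F, ε e * x e = 0 := by
    have hd : Disjoint (s \ t) (t \ s) := disjoint_sdiff_sdiff
    rw [hF, Finset.sum_union hd]
    have h1 : ∑ e ∈ s \ t, ε e * x e = ∑ e ∈ s \ t, x e := by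
      apply Finset.sum_congr rfl
      intro e he
      rw [Finset.mem_sdiff] at he
      simp only [hε, if_pos he.1, one_mul]
    have h2 : ∑ e ∈ t \ s, ε e * x e = - ∑ e ∈ t \ s, x e := by
      rw [← Finset.sum_neg_distrib]
      apply Finset.sum_congr rfl
      intro e he
      rw [Finset.mem_sdiff] at he
      simp only [hε, if_neg he.2, neg_mul, one_mul]
    rw [h1, h2]
    have h3 : ∑ e ∈ s \ t, x e + ∑ e ∈ s ∩ t, x e = ∑ e ∈ s, x e := by
      rw [add_comm]
      exact Finset.sum_inter_add_sum_sdiff s t x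
    have h4 : ∑ e ∈ t \ s, x e + ∑ e ∈ s ∩ t, x e = ∑ e ∈ t, x e := by
      rw [add_comm, Finset.inter_comm]
      exact Finset.sum_inter_add_sum_sdiff t s x
    linarith
  have hcard : ∀ e, (c e).support.card ≤ k := by
    intro e
    have h1 : ((c e).support.card : ℤ) ≤ ∑ i ∈ (c e).support, |c e i| := by
      rw [Finset.card_eq_sum_ones]
      push_cast
      apply Finset.sum_le_sum
      intro i hi
      exact Int.one_le_abs (Finsupp.mem_support_iff.1 hi)
    have h2 := h1.trans (hw e)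
    exact_mod_cast h2
  -- the main estimate for one element
  have main : ∀ e' ∈ F, (1 / 3 : ℝ) ^ k ≤ ∑ e ∈ F.erase e', ∑ i ∈ (c e).support.filter (fun i => i + L ≤ v e'),
      ((|c e i| : ℤ) : ℝ) * (1 / 2) ^ (v e' - i) := by
    intro e' he'
    have hC' := hFC e' he'
    set y : ℕ → ℤ := fun e => ∑ i ∈ (c e).support.filter (fun i => i ≤ v e'), c e i * lam i with hy
    have hdvd : ∀ e, ∃ z : ℤ, x e = y e + z * lam (v e' + 1) := by
      intro e
      have h1 : x e - y e = ∑ i ∈ (c e).support.filter (fun i => ¬ i ≤ v e'), c e i * lam i := by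
        rw [hx, hy]
        simp only
        rw [← Finset.sum_filter_add_sum_filter_not (c e).support (fun i => i ≤ v e')]
        ring
      have h2 : lam (v e' + 1) ∣ x e - y e := by
        rw [h1]
        apply Finset.dvd_sum
        intro i hi
        rw [Finset.mem_filter] at hi
        exact Dvd.dvd.mul_left (lam_dvd lam r hlam (by omega)) _
      obtain ⟨z, hz⟩ := h2
      exact ⟨z, by linarith⟩
    choose Z hZ using hdvd
    have h1 : x e' = ∑ e ∈ F.erase e', (- (ε e' * ε e)) * y e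
        + (∑ e ∈ F.erase e', (- (ε e' * ε e)) * Z e) * lam (v e' + 1) := by
      have h2 : ε e' * x e' + ∑ e ∈ F.erase e', ε e * x e = 0 := by
        rw [Finset.add_sum_erase F (fun e => ε e * x e) he']
        exact hsum
      have h3 : x e' = - (ε e' * ∑ e ∈ F.erase e', ε e * x e) := by
        have h4 : ε e' * (ε e' * x e' + ∑ e ∈ F.erase e', ε e * x e) = 0 := by rw [h2, mul_zero]
        have h5 := hε2 e'
        have h6 : ε e' * (ε e' * x e') = x e' := by rw [← mul_assoc, h5, one_mul]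
        rw [mul_add, h6] at h4
        linarith
      rw [h3, Finset.mul_sum, ← Finset.sum_neg_distrib, Finset.sum_mul, ← Finset.sum_add_distrib]
      apply Finset.sum_congr rfl
      intro e _
      rw [hZ e]
      ring
    have h2 := heavy lam r hpos hr hlam (c e') (hc e') k (hcard e') (v e') (hv e' hC')
      (∑ e ∈ F.erase e', (- (ε e' * ε e)) * Z e)
    have h3 : (∑ i ∈ (c e').support, c e' i * lam i
        - (∑ e ∈ F.erase e', (- (ε e' * ε e)) * Z e) * lam (v e' + 1) : ℤ) = ∑ e ∈ F.erase e', (- (ε e' * ε e)) * y e := by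
      have h4 : ∑ i ∈ (c e').support, c e' i * lam i = x e' := rfl
      rw [h4, h1]
      ring
    rw [h3] at h2
    have hlv : (0 : ℝ) < lam (v e') := by exact_mod_cast hpos _
    have h4 : |((∑ e ∈ F.erase e', (- (ε e' * ε e)) * y e : ℤ) : ℝ)| ≤ ∑ e ∈ F.erase e', |(y e : ℝ)| := by
      push_cast
      refine (Finset.abs_sum_le_sum_abs _ _).trans (le_of_eq ?_)
      apply Finset.sum_congr rfl
      intro e _
      rw [abs_mul, abs_neg, abs_mul]
      have h5 : |(ε e' : ℝ)| = 1 := by exact_mod_cast hεabs e'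
      have h6 : |(ε e : ℝ)| = 1 := by exact_mod_cast hεabs e
      rw [h5, h6, one_mul, one_mul]
    have h5 : ∀ e ∈ F.erase e', |(y e : ℝ)| ≤ lam (v e') * ∑ i ∈ (c e).support.filter (fun i => i + L ≤ v e'),
        ((|c e i| : ℤ) : ℝ) * (1 / 2) ^ (v e' - i) := by
      intro e he
      rw [Finset.mem_erase] at he
      have hsub : (c e).support.filter (fun i => i ≤ v e') = (c e).support.filter (fun i => i + L ≤ v e') := by
        apply Finset.filter_congr
        intro i hi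
        constructor
        · intro hi'
          exact hsep e (hFC e he.2) e' hC' he.1 i hi hi'
        · intro hi'
          omega
      rw [hy]
      simp only
      rw [hsub]
      push_cast
      refine (Finset.abs_sum_le_sum_abs _ _).trans ?_
      rw [Finset.mul_sum]
      apply Finset.sum_le_sum
      intro i hi
      rw [Finset.mem_filter] at hi
      rw [abs_mul]
      have h6 := lam_pow lam r hpos hr hlam i (v e' - i)
      rw [show i + (v e' - i) = v e' by omega] at h6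
      have h7 : |(lam i : ℝ)| = lam i := abs_of_pos (by exact_mod_cast hpos i)
      rw [h7]
      have h8 : (0 : ℝ) ≤ |(c e i : ℝ)| := abs_nonneg _
      calc |(c e i : ℝ)| * lam i ≤ |(c e i : ℝ)| * (lam (v e') * (1 / 2) ^ (v e' - i)) :=
            mul_le_mul_of_nonneg_left h6 h8
        _ = lam (v e') * (|(c e i : ℝ)| * (1 / 2) ^ (v e' - i)) := by ring
    have h6 : (1 / 3 : ℝ) ^ k * lam (v e') ≤ lam (v e') * ∑ e ∈ F.erase e',
        ∑ i ∈ (c e).support.filter (fun i => i + L ≤ v e'), ((|c e i| : ℤ) : ℝ) * (1 / 2) ^ (v e' - i) := by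
      rw [Finset.mul_sum]
      exact h2.trans (h4.trans (Finset.sum_le_sum h5))
    rw [mul_comm] at h6
    exact le_of_mul_le_mul_left h6 hlv
  -- sum over all elements
  have hS : (F.card : ℝ) * (1 / 3 : ℝ) ^ k ≤ ∑ e' ∈ F, ∑ e ∈ F, ∑ i ∈ (c e).support.filter (fun i => i + L ≤ v e'),
      ((|c e i| : ℤ) : ℝ) * (1 / 2) ^ (v e' - i) := by
    rw [← nsmul_eq_mul, ← Finset.sum_const]
    apply Finset.sum_le_sum
    intro e' he'
    refine (main e' he').trans ?_
    apply Finset.sum_le_sum_of_subset_of_nonneg (Finset.erase_subset _ _)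
    intro e _ _
    apply Finset.sum_nonneg
    intro i _
    positivity
  have hS2 : ∑ e' ∈ F, ∑ e ∈ F, ∑ i ∈ (c e).support.filter (fun i => i + L ≤ v e'),
      ((|c e i| : ℤ) : ℝ) * (1 / 2) ^ (v e' - i) ≤ ∑ e ∈ F, (k : ℝ) * (2 * (1 / 2) ^ L) := by
    rw [Finset.sum_comm]
    apply Finset.sum_le_sum
    intro e _
    have h1 : ∑ e' ∈ F, ∑ i ∈ (c e).support.filter (fun i => i + L ≤ v e'),
        ((|c e i| : ℤ) : ℝ) * (1 / 2) ^ (v e' - i) = ∑ i ∈ (c e).support, ((|c e i| : ℤ) : ℝ) *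
          ∑ e' ∈ F.filter (fun e' => i + L ≤ v e'), (1 / 2) ^ (v e' - i) := by
      simp only [Finset.sum_filter, Finset.mul_sum]
      rw [Finset.sum_comm]
      apply Finset.sum_congr rfl
      intro i _
      apply Finset.sum_congr rfl
      intro e' _
      split_ifs <;> simp
    rw [h1]
    have h2 : ∀ i ∈ (c e).support, ((|c e i| : ℤ) : ℝ) * ∑ e' ∈ F.filter (fun e' => i + L ≤ v e'), (1 / 2) ^ (v e' - i)
        ≤ ((|c e i| : ℤ) : ℝ) * (2 * (1 / 2) ^ L) := by
      intro i _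
      apply mul_le_mul_of_nonneg_left _ (by positivity)
      apply geo_inj
      · intro a ha b hb hab
        rw [Finset.mem_filter] at ha hb
        exact hinj a (hFC a ha.1) b (hFC b hb.1) hab
      · intro a ha
        rw [Finset.mem_filter] at ha
        exact ha.2
    refine (Finset.sum_le_sum h2).trans ?_
    rw [← Finset.sum_mul]
    apply mul_le_mul_of_nonneg_right _ (by positivity)
    exact_mod_cast hw e
  rw [Finset.sum_const, nsmul_eq_mul] at hS2
  have hcpos : (0 : ℝ) < F.card := by exact_mod_cast hFne.card_pos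
  have hfin := hS.trans hS2
  have h9 := le_of_mul_le_mul_left hfin hcpos
  linarith

end PS75
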