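import Pool.Agent.PS75.Red
import Pool.Agent.PS75.Cnt
import Pool.Agent.PS75.Col
import Pool.Agent.PS75.Ind

/-!
# [PS75-MAIN] assembly (Pisier problem for sparse digit sets, MP_105f43_nt)
-/

set_option autoImplicit false

namespace PS75

theorem main (δ : ℝ) (k : ℕ) (hδ : 0 < δ) (hk : 1 ≤ k) : ∃ K : ℕ, ∀ lam r : ℕ → ℤ, (∀ i, 0 < lam i) →
    (∀ i, 2 ≤ r i) → (∀ i, lam (i + 1) = r i * lam i) → ∀ b : ℕ → ℤ,
      (∀ n, ∃ c : ℕ →₀ ℤ, ∑ i ∈ c.support, |c i| ≤ (k : ℤ) ∧ b n = ∑ i ∈ c.support, c i * lam i) →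
      (∀ F : Finset ℕ, ∃ G : Finset ℕ, G ⊆ F ∧ δ * (F.card : ℝ) ≤ (G.card : ℝ) ∧
          ∀ s : Finset ℕ, s ⊆ G → ∀ t : Finset ℕ, t ⊆ G →
            ∑ i ∈ s, b i = ∑ i ∈ t, b i → s = t) →
      ∃ c : ℕ → Fin K, ∀ a : Fin K, ∀ s t : Finset ℕ,
        (∀ i ∈ s, c i = a) → (∀ i ∈ t, c i = a) →
          ∑ i ∈ s, b i = ∑ i ∈ t, b i → s = t := by
  classical
  obtain ⟨N, hN⟩ := exists_nat_gt (2 * (6 * (k : ℝ) + 1) / δ)
  have hN0 : 0 < N := by
    have : (0 : ℝ) < N := lt_of_le_of_lt (by positivity) hN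
    exact_mod_cast this
  obtain ⟨L, hLdef⟩ : ∃ L : ℕ, L = 3 * k + 2 := ⟨_, rfl⟩
  have hL : 2 * (k : ℝ) * (1 / 2) ^ L < (1 / 3) ^ k := by
    have h1 : (k : ℝ) < (8 / 3 : ℝ) ^ k := by
      have h2 : (1 : ℝ) + k * (5 / 3) ≤ (1 + 5 / 3) ^ k := one_add_mul_le_pow (by norm_num) k
      have h3 : (1 + 5 / 3 : ℝ) = 8 / 3 := by norm_num
      rw [h3] at h2
      have h4 : (0 : ℝ) ≤ k := Nat.cast_nonneg k
      linarith
    have h2 : (1 / 2 : ℝ) ^ L = (1 / 8) ^ k * (1 / 4) := by
      rw [hLdef, pow_add, pow_mul]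
      norm_num
    rw [h2]
    have h3 : (1 / 3 : ℝ) ^ k = (8 / 3) ^ k * (1 / 8) ^ k := by
      rw [← mul_pow]
      norm_num
    rw [h3]
    have h5 : (0 : ℝ) < (1 / 8) ^ k := by positivity
    nlinarith
  obtain ⟨K, hK⟩ : ∃ K : ℕ, K = N * (2 * (k * L) + 1) := ⟨_, rfl⟩
  refine ⟨K, ?_⟩
  intro lam r hpos hr hlam b hb hP
  choose c0 hc0w hc0v using hb
  -- reduced representations
  have hred : ∀ n, ∃ c : ℕ →₀ ℤ, ∑ i ∈ c.support, |c i| ≤ (k : ℤ) ∧ b n = ∑ i ∈ c.support, c i * lam i ∧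
      ∀ i, 2 * |c i| ≤ r i + 1 := by
    intro n
    obtain ⟨c, h1, h2, h3⟩ := reduce lam r hpos hr hlam (c0 n)
    exact ⟨c, h2.trans (hc0w n), by rw [hc0v n, h1], h3⟩
  choose c hcw hcv hcr using hred
  have hbn : ∀ s : Finset ℕ, ∑ e ∈ s, b e = ∑ e ∈ s, (∑ i ∈ (c e).support, c e i * lam i) := fun s =>
    Finset.sum_congr rfl fun e _ => hcv e
  -- Hall
  have hall : ∀ F : Finset ℕ, F.card ≤ (F.biUnion fun e => (c e).support ×ˢ (Finset.univ : Finset (Fin N))).card := by
    intro F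
    obtain ⟨G, hG1, hG2, hG3⟩ := hP F
    have h1 := count lam k hk G c hcw (by
      intro s hs t ht h
      apply hG3 s hs t ht
      rw [hbn, hbn]
      exact h)
    have h2 : (F.biUnion fun e => (c e).support ×ˢ (Finset.univ : Finset (Fin N)))
        = (F.biUnion fun e => (c e).support) ×ˢ (Finset.univ : Finset (Fin N)) := by
      ext ⟨x, y⟩
      simp
    rw [h2, Finset.card_product, Finset.card_univ, Fintype.card_fin]
    have h3 : (G.biUnion fun e => (c e).support).card ≤ (F.biUnion fun e => (c e).support).card :=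
      Finset.card_le_card (Finset.biUnion_subset_biUnion_of_subset_left _ hG1)
    have h4 : (G.card : ℝ) ≤ 2 * (6 * k + 1) * (F.biUnion fun e => (c e).support).card := by
      have h5 : G.card ≤ 2 * (6 * k + 1) * (F.biUnion fun e => (c e).support).card :=
        h1.trans (Nat.mul_le_mul_left _ h3)
      exact_mod_cast h5
    have h5 : (F.card : ℝ) ≤ (F.biUnion fun e => (c e).support).card * N := by
      have h6 : (F.card : ℝ) ≤ 2 * (6 * k + 1) * (F.biUnion fun e => (c e).support).card / δ := by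
        rw [le_div_iff₀ hδ]
        linarith
      have h7 : 2 * (6 * (k : ℝ) + 1) * (F.biUnion fun e => (c e).support).card / δ
          = (F.biUnion fun e => (c e).support).card * (2 * (6 * (k : ℝ) + 1) / δ) := by ring
      rw [h7] at h6
      exact h6.trans (mul_le_mul_of_nonneg_left hN.le (Nat.cast_nonneg _))
    exact_mod_cast h5
  obtain ⟨f, hf1, hf2⟩ := (Finset.all_card_le_biUnion_card_iff_exists_injective
    (fun e => (c e).support ×ˢ (Finset.univ : Finset (Fin N)))).1 hall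
  have hfs : ∀ e, (f e).1 ∈ (c e).support := fun e => (Finset.mem_product.1 (hf2 e)).1
  -- supports are small
  have hcard : ∀ e, (c e).support.card ≤ k := by
    intro e
    have h1 : (((c e).support.card : ℕ) : ℤ) ≤ ∑ i ∈ (c e).support, |c e i| := by
      rw [Finset.card_eq_sum_ones]
      push_cast
      apply Finset.sum_le_sum
      intro i hi
      exact Int.one_le_abs (Finsupp.mem_support_iff.1 hi)
    exact_mod_cast h1.trans (hcw e)
  -- conflicts
  obtain ⟨χ, hχ⟩ := exists_col (fun e e' => (f e).2 = (f e').2 ∧ ∃ i ∈ (c e).support, i ≤ (f e').1 ∧ (f e').1 < i + L)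
    (k * L) (by
      intro e
      have hfin : {e' | (f e).2 = (f e').2 ∧ ∃ i ∈ (c e).support, i ≤ (f e').1 ∧ (f e').1 < i + L}
          ⊆ f ⁻¹' (((c e).support.biUnion fun i => Finset.Ico i (i + L)) ×ˢ {(f e).2} : Finset (ℕ × Fin N)) := by
        rintro e' ⟨h1, i, hi, h2, h3⟩
        simp only [Set.mem_preimage, Finset.coe_product, Finset.coe_singleton, Set.mem_prod, Finset.mem_coe,
          Finset.mem_biUnion, Finset.mem_Ico, Set.mem_singleton_iff]
        exact ⟨⟨i, hi, h2, h3⟩, h1.symm⟩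
      have hfs : (f ⁻¹' (((c e).support.biUnion fun i => Finset.Ico i (i + L)) ×ˢ {(f e).2} : Finset (ℕ × Fin N))).Finite :=
        (Finset.finite_toSet _).preimage hf1.injOn
      refine ⟨hfs.toFinset, ?_, ?_⟩
      · have h1 : (hfs.toFinset.image f) ⊆ ((c e).support.biUnion fun i => Finset.Ico i (i + L)) ×ˢ {(f e).2} := by
          intro y hy
          obtain ⟨x, hx, rfl⟩ := Finset.mem_image.1 hy
          have := (hfs.mem_toFinset).1 hx
          exact_mod_cast this
        have h2 := Finset.card_le_card h1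
        rw [Finset.card_image_of_injective _ hf1, Finset.card_product, Finset.card_singleton, mul_one] at h2
        refine h2.trans (Finset.card_biUnion_le.trans ?_)
        simp only [Nat.card_Ico, Nat.add_sub_cancel_left, Finset.sum_const, smul_eq_mul]
        exact Nat.mul_le_mul_right _ (hcard e)
      · intro e' he'
        rw [hfs.mem_toFinset]
        exact hfin he')
  -- the colouring
  have hKcard : Fintype.card (Fin N × Fin (2 * (k * L) + 1)) = K := by
    rw [Fintype.card_prod, Fintype.card_fin, Fintype.card_fin, hK]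
  obtain ⟨eq⟩ : Nonempty (Fin N × Fin (2 * (k * L) + 1) ≃ Fin K) := ⟨Fintype.equivFinOfCardEq hKcard⟩
  refine ⟨fun e => eq ((f e).2, χ e), ?_⟩
  intro a s t hs ht h
  have hcol : ∀ e, eq ((f e).2, χ e) = a → (f e).2 = (eq.symm a).1 ∧ χ e = (eq.symm a).2 := by
    intro e he
    have h1 : ((f e).2, χ e) = eq.symm a := by
      rw [← he, Equiv.symm_apply_apply]
    rw [← h1]
    exact ⟨rfl, rfl⟩
  rw [hbn, hbn] at h
  refine indep lam r hpos hr hlam k L hL {e | eq ((f e).2, χ e) = a} c (fun e => (f e).1) hcr hcw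
    (fun e _ => hfs e) ?_ ?_ s t hs ht h
  · intro e he e' he' hv
    obtain ⟨h1, _⟩ := hcol e he
    obtain ⟨h2, _⟩ := hcol e' he'
    apply hf1
    exact Prod.ext hv (h1.trans h2.symm)
  · intro e he e' he' hne i hi hile
    obtain ⟨h1, h1'⟩ := hcol e he
    obtain ⟨h2, h2'⟩ := hcol e' he'
    by_contra hcon
    exact hχ e e' hne ⟨h1.trans h2.symm, i, hi, hile, not_le.1 hcon⟩ (h1'.trans h2'.symm)

end PS75
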