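import Mathlib

/-!
# [PS75-RED] reduced representations (Pisier problem, MP_105f43_nt)

`lam 0 | lam 1 | ...` with quotients `r i ≥ 2`. An integer is represented by `c : ℕ →₀ ℤ` as `∑ c i * lam i`, the weight is `∑ |c i|`.

`reduce`: among all `c'` with the same value as `c` choose one with the least weight (the weight is a nonnegative integer; `WellFounded.min` or `Nat.find` on
the `toNat` of the weight). If `2 |c' i| ≥ r i + 2` for some `i`, say `c' i > 0` (the other sign is symmetric): replace `c' i` by `c' i - r i` and `c' (i+1)` by `c' (i+1) + 1`.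
The value is the same and the new weight is at most the old one `- c' i + |c' i - r i| + 1`, which is smaller than the old one:
if `c' i ≤ r i` then `r i - c' i + 1 ≤ c' i - 1`, otherwise `c' i - r i + 1 < c' i` since `r i ≥ 2`. (Write `c' = c'.erase i + single i (c' i)`.)

`low`: `|∑_{i < v} c i * lam i| ≤ (1 - 3^(-m)) lam v`, `m` the number of `i < v` with `c i ≠ 0`. Induction on `v`. If `c v = 0` clear (`lam v ≤ lam (v+1)`).
If `c v ≠ 0`: with `x = 3^(-(m+1)) ≤ 1/3` one needs `|c v| + 1 - 3 x ≤ r v - r v x`. For `r v = 2` `|c v| ≤ 1`, fine. For `r v ≥ 3`: `(r v - 3) x ≤ (r v - 3)/3` and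
`|c v| ≤ (r v + 1) / 2 ≤ 2 r v / 3`.
`heavy`: let `S = ∑_{i ≤ v} c i * lam i`; the value of `c` is `S` plus a multiple of `lam (v+1)`. With `m ≤ k - 1` the number of `i < v` in the support and `|lower part| ≤ (1 - 3^(-m)) lam v`:
`|S| ≥ lam v - (1 - 3^(-m)) lam v ≥ 3^(-k) lam v`, and `|S| ≤ |c v| lam v + (1 - 3^(-m)) lam v ≤ lam (v+1) - 3^(-k) lam v` as `|c v| ≤ r v - 1` (from `2 |c v| ≤ r v + 1`, `r v ≥ 2`,
integers). So `|S - z' lam (v+1)| ≥ 3^(-k) lam v` for every integer `z'`.
-/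

set_option autoImplicit false

namespace PS75

open Finset in
private lemma wt_add (f g : ℕ →₀ ℤ) :
    ∑ i ∈ (f + g).support, |(f + g) i| ≤ ∑ i ∈ f.support, |f i| + ∑ i ∈ g.support, |g i| := by
  classical
  have h1 : ∑ i ∈ (f + g).support, |(f + g) i| = ∑ i ∈ f.support ∪ g.support, |(f + g) i| := by
    refine sum_subset Finsupp.support_add (fun i _ hi => ?_)
    rw [Finsupp.notMem_support_iff.1 hi, abs_zero]
  have h2 : ∑ i ∈ f.support, |f i| = ∑ i ∈ f.support ∪ g.support, |f i| := by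
    refine sum_subset subset_union_left (fun i _ hi => ?_)
    rw [Finsupp.notMem_support_iff.1 hi, abs_zero]
  have h3 : ∑ i ∈ g.support, |g i| = ∑ i ∈ f.support ∪ g.support, |g i| := by
    refine sum_subset subset_union_right (fun i _ hi => ?_)
    rw [Finsupp.notMem_support_iff.1 hi, abs_zero]
  rw [h1, h2, h3, ← sum_add_distrib]
  exact sum_le_sum (fun i _ => abs_add_le _ _)

private lemma val_add (lam : ℕ → ℤ) (f g : ℕ →₀ ℤ) :
    ∑ i ∈ (f + g).support, (f + g) i * lam i
      = ∑ i ∈ f.support, f i * lam i + ∑ i ∈ g.support, g i * lam i := by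
  have := Finsupp.sum_add_index' (f := f) (g := g) (h := fun i x => x * lam i) (by simp)
    (by intros; ring)
  exact this

private lemma wt_single (i : ℕ) (a : ℤ) :
    ∑ j ∈ (Finsupp.single i a).support, |(Finsupp.single i a) j| = |a| := by
  have := Finsupp.sum_single_index (a := i) (b := a) (h := fun (_ : ℕ) (x : ℤ) => |x|) (by simp)
  exact this

private lemma val_single (lam : ℕ → ℤ) (i : ℕ) (a : ℤ) :
    ∑ j ∈ (Finsupp.single i a).support, (Finsupp.single i a) j * lam j = a * lam i := by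
  have := Finsupp.sum_single_index (a := i) (b := a) (h := fun j (x : ℤ) => x * lam j) (by simp)
  exact this

private lemma wt_erase (f : ℕ →₀ ℤ) (i : ℕ) :
    ∑ j ∈ f.support, |f j| = ∑ j ∈ (f.erase i).support, |(f.erase i) j| + |f i| := by
  by_cases hi : i ∈ f.support
  · rw [Finsupp.support_erase, ← Finset.sum_erase_add _ _ hi]
    congr 1
    refine Finset.sum_congr rfl (fun j hj => ?_)
    rw [Finsupp.erase_ne (Finset.ne_of_mem_erase hj)]
  · have h1 : f i = 0 := Finsupp.notMem_support_iff.1 hi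
    rw [Finsupp.erase_of_notMem_support hi, h1, abs_zero, add_zero]

theorem reduce (lam r : ℕ → ℤ) (hpos : ∀ i, 0 < lam i) (hr : ∀ i, 2 ≤ r i) (hlam : ∀ i, lam (i + 1) = r i * lam i)
    (c : ℕ →₀ ℤ) : ∃ c' : ℕ →₀ ℤ, ∑ i ∈ c'.support, c' i * lam i = ∑ i ∈ c.support, c i * lam i ∧
      ∑ i ∈ c'.support, |c' i| ≤ ∑ i ∈ c.support, |c i| ∧ ∀ i, 2 * |c' i| ≤ r i + 1 := by
  classical
  have hex : ∃ n : ℕ, ∃ c' : ℕ →₀ ℤ, ∑ i ∈ c'.support, c' i * lam i = ∑ i ∈ c.support, c i * lam i ∧
      ∑ i ∈ c'.support, |c' i| = n := by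
    refine ⟨(∑ i ∈ c.support, |c i|).toNat, c, rfl, ?_⟩
    rw [Int.toNat_of_nonneg (Finset.sum_nonneg (fun i _ => abs_nonneg _))]
  obtain ⟨c', hval, hwt⟩ := Nat.find_spec hex
  have hmin : ∀ d : ℕ →₀ ℤ, ∑ i ∈ d.support, d i * lam i = ∑ i ∈ c.support, c i * lam i →
      ∑ i ∈ c'.support, |c' i| ≤ ∑ i ∈ d.support, |d i| := by
    intro d hd
    have h0 : 0 ≤ ∑ i ∈ d.support, |d i| := Finset.sum_nonneg (fun i _ => abs_nonneg _)
    have h1 := Nat.find_min' hex (m := (∑ i ∈ d.support, |d i|).toNat)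
      ⟨d, hd, by rw [Int.toNat_of_nonneg h0]⟩
    rw [hwt]
    omega
  refine ⟨c', hval, hmin c rfl, fun i => ?_⟩
  by_contra hcon
  push Not at hcon
  -- the sign
  obtain ⟨s, hs, hsc⟩ : ∃ s : ℤ, |s| = 1 ∧ c' i = s * |c' i| := by
    rcases le_or_gt 0 (c' i) with h | h
    · exact ⟨1, by norm_num, by rw [abs_of_nonneg h, one_mul]⟩
    · exact ⟨-1, by norm_num, by rw [abs_of_neg h]; ring⟩
  set d : ℕ →₀ ℤ := (c'.erase i + Finsupp.single i (c' i - s * r i)) + Finsupp.single (i + 1) s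
    with hd
  have hv : ∑ j ∈ d.support, d j * lam j = ∑ i ∈ c.support, c i * lam i := by
    rw [hd, val_add, val_add, val_single, val_single, ← hval]
    have h1 : ∑ j ∈ c'.support, c' j * lam j
        = ∑ j ∈ (c'.erase i).support, (c'.erase i) j * lam j + c' i * lam i := by
      conv_lhs => rw [← Finsupp.erase_add_single i c']
      rw [val_add, val_single]
    rw [h1, hlam i]
    ring
  have hw : ∑ j ∈ d.support, |d j| ≤ ∑ j ∈ c'.support, |c' j| - |c' i| + |c' i - s * r i| + 1 := by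
    have h1 := wt_add (c'.erase i + Finsupp.single i (c' i - s * r i)) (Finsupp.single (i + 1) s)
    have h2 := wt_add (c'.erase i) (Finsupp.single i (c' i - s * r i))
    rw [wt_single] at h1 h2
    have h3 := wt_erase c' i
    rw [hs] at h1
    rw [hd]
    linarith
  have h1 := hmin d hv
  have h2 : |c' i - s * r i| = |(|c' i|) - r i| := by
    have : c' i - s * r i = s * (|c' i| - r i) := by
      rw [mul_sub, ← hsc]
    rw [this, abs_mul, hs, one_mul]
  have h3 := hr i
  have h4 : |(|c' i|) - r i| + 1 < |c' i| := by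
    rcases le_or_gt (|c' i|) (r i) with h | h
    · rw [abs_of_nonpos (by linarith)]
      omega
    · rw [abs_of_pos (by linarith)]
      omega
  rw [h2] at hw
  omega

private lemma aux_ineq {c r : ℤ} (hr : 2 ≤ r) (hc : 2 * |c| ≤ r + 1) : |c| ≤ r - 1 := by
  omega

theorem low (lam r : ℕ → ℤ) (hpos : ∀ i, 0 < lam i) (hr : ∀ i, 2 ≤ r i) (hlam : ∀ i, lam (i + 1) = r i * lam i)
    (c : ℕ → ℤ) (hc : ∀ i, 2 * |c i| ≤ r i + 1) (v : ℕ) :
    |((∑ i ∈ Finset.range v, c i * lam i : ℤ) : ℝ)|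
      ≤ (1 - (1 / 3 : ℝ) ^ ((Finset.range v).filter fun i => c i ≠ 0).card) * lam v := by
  induction v with
  | zero => simp
  | succ v ih =>
    have hl0 : (0 : ℝ) < lam v := by exact_mod_cast hpos v
    have hr0 : (2 : ℝ) ≤ r v := by exact_mod_cast hr v
    have hl1 : (lam (v + 1) : ℝ) = r v * lam v := by exact_mod_cast congrArg (Int.cast : ℤ → ℝ) (hlam v)
    rw [Finset.sum_range_succ, Finset.range_add_one, Finset.filter_insert]
    by_cases h0 : c v = 0
    · rw [if_neg (by simp [h0]), h0, zero_mul, add_zero, hl1]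
      refine ih.trans ?_
      have h1 : (0 : ℝ) ≤ 1 - (1 / 3 : ℝ) ^ ((Finset.range v).filter fun i => c i ≠ 0).card := by
        have : (1 / 3 : ℝ) ^ ((Finset.range v).filter fun i => c i ≠ 0).card ≤ 1 :=
          pow_le_one₀ (by norm_num) (by norm_num)
        linarith
      apply mul_le_mul_of_nonneg_left _ h1
      nlinarith
    · rw [if_pos h0, Finset.card_insert_of_notMem (by simp), hl1]
      set m := ((Finset.range v).filter fun i => c i ≠ 0).card with hm
      set x : ℝ := (1 / 3 : ℝ) ^ (m + 1) with hx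
      have hx0 : 0 < x := by positivity
      have hx3 : (1 / 3 : ℝ) ^ m = 3 * x := by rw [hx, pow_succ]; ring
      have hx1 : 3 * x ≤ 1 := by
        rw [← hx3]; exact pow_le_one₀ (by norm_num) (by norm_num)
      rw [hx3] at ih
      push_cast at ih ⊢
      have h1 : |(∑ i ∈ Finset.range v, (c i : ℝ) * (lam i : ℝ)) + (c v : ℝ) * (lam v : ℝ)|
          ≤ (1 - 3 * x) * lam v + |(c v : ℝ)| * lam v := by
        refine (abs_add_le _ _).trans ?_
        rw [abs_mul, abs_of_pos hl0]
        linarith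
      refine h1.trans ?_
      have h2 : |(c v : ℝ)| + 1 - 3 * x ≤ r v - r v * x := by
        have h3 := hc v
        rcases (by have := hr v; omega : r v = 2 ∨ 3 ≤ r v) with h4 | h4
        · have h5 : |c v| ≤ 1 := by omega
          have h6 : |(c v : ℝ)| ≤ 1 := by exact_mod_cast h5
          rw [h4]; push_cast
          linarith
        · have h5 : 2 * |(c v : ℝ)| ≤ r v + 1 := by exact_mod_cast h3
          have h6 : (3 : ℝ) ≤ r v := by exact_mod_cast h4
          nlinarith
      nlinarith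

private lemma dvd_lam (lam r : ℕ → ℤ) (hlam : ∀ i, lam (i + 1) = r i * lam i) (w j : ℕ) :
    lam w ∣ lam (w + j) := by
  induction j with
  | zero => exact dvd_rfl
  | succ j ih =>
    rw [← add_assoc, hlam]
    exact ih.mul_left _

theorem heavy (lam r : ℕ → ℤ) (hpos : ∀ i, 0 < lam i) (hr : ∀ i, 2 ≤ r i) (hlam : ∀ i, lam (i + 1) = r i * lam i)
    (c : ℕ →₀ ℤ) (hc : ∀ i, 2 * |c i| ≤ r i + 1) (k : ℕ) (hk : c.support.card ≤ k) (v : ℕ) (hv : v ∈ c.support)
    (z : ℤ) : (1 / 3 : ℝ) ^ k * lam v ≤ |((∑ i ∈ c.support, c i * lam i - z * lam (v + 1) : ℤ) : ℝ)| := by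
  classical
  have hl0 : (0 : ℝ) < lam v := by exact_mod_cast hpos v
  have hl1 : (lam (v + 1) : ℝ) = r v * lam v := by exact_mod_cast congrArg (Int.cast : ℤ → ℝ) (hlam v)
  have hr0 : (2 : ℝ) ≤ r v := by exact_mod_cast hr v
  -- split the sum
  have h1 : ∑ i ∈ c.support.filter (fun i => i < v + 1), c i * lam i
      = ∑ i ∈ Finset.range (v + 1), c i * lam i := by
    refine Finset.sum_subset (fun i hi => Finset.mem_range.2 (Finset.mem_filter.1 hi).2)
      (fun i hi hi' => ?_)
    have : c i = 0 := by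
      by_contra h
      exact hi' (Finset.mem_filter.2 ⟨Finsupp.mem_support_iff.2 h, Finset.mem_range.1 hi⟩)
    rw [this, zero_mul]
  obtain ⟨q, hq⟩ : lam (v + 1) ∣ ∑ i ∈ c.support.filter (fun i => ¬ i < v + 1), c i * lam i := by
    refine Finset.dvd_sum (fun i hi => ?_)
    have h2 := (Finset.mem_filter.1 hi).2
    obtain ⟨j, rfl⟩ : ∃ j, i = v + 1 + j := ⟨i - (v + 1), by omega⟩
    exact (dvd_lam lam r hlam (v + 1) j).mul_left _
  have h2 : ∑ i ∈ c.support, c i * lam i - z * lam (v + 1)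
      = (∑ i ∈ Finset.range v, c i * lam i) + c v * lam v - (z - q) * lam (v + 1) := by
    rw [← Finset.sum_filter_add_sum_filter_not c.support (fun i => i < v + 1), h1, hq,
      Finset.sum_range_succ]
    ring
  rw [h2]
  have h3 := low lam r hpos hr hlam c hc v
  set m := ((Finset.range v).filter fun i => c i ≠ 0).card with hm
  have hmk : m ≤ k := by
    refine le_trans ?_ hk
    refine Finset.card_le_card (fun i hi => ?_)
    exact Finsupp.mem_support_iff.2 (Finset.mem_filter.1 hi).2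
  have hx : (1 / 3 : ℝ) ^ k ≤ (1 / 3 : ℝ) ^ m := pow_le_pow_of_le_one (by norm_num) (by norm_num) hmk
  have hx0 : (0 : ℝ) < (1 / 3 : ℝ) ^ k := by positivity
  set S0 : ℤ := ∑ i ∈ Finset.range v, c i * lam i with hS0
  have hc1 : (1 : ℝ) ≤ |(c v : ℝ)| := by
    have : c v ≠ 0 := Finsupp.mem_support_iff.1 hv
    have h5 : 1 ≤ |c v| := Int.one_le_abs this
    exact_mod_cast h5
  have hc2 : |(c v : ℝ)| ≤ r v - 1 := by
    have h5 := aux_ineq (hr v) (hc v)
    exact_mod_cast h5
  -- the bounds for `S`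
  have hlow : (1 / 3 : ℝ) ^ k * lam v ≤ |(S0 : ℝ) + c v * lam v| := by
    have h5 : |(c v : ℝ) * lam v| ≤ |(S0 : ℝ) + c v * lam v| + |(S0 : ℝ)| := by
      have := abs_sub (S0 + c v * lam v : ℝ) (S0 : ℝ)
      have e : (S0 : ℝ) + c v * lam v - S0 = c v * lam v := by ring
      rwa [e] at this
    rw [abs_mul, abs_of_pos hl0] at h5
    nlinarith
  have hup : |(S0 : ℝ) + c v * lam v| ≤ lam (v + 1) - (1 / 3 : ℝ) ^ k * lam v := by
    have h5 := abs_add_le (S0 : ℝ) (c v * lam v)
    rw [abs_mul, abs_of_pos hl0] at h5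
    rw [hl1]
    nlinarith
  push_cast
  rcases eq_or_ne (z - q) 0 with h6 | h6
  · have h7 : ((z : ℝ) - q) = 0 := by exact_mod_cast congrArg (Int.cast : ℤ → ℝ) h6
    rw [h7, zero_mul, sub_zero]
    exact hlow
  · have h7 : (1 : ℝ) ≤ |(z : ℝ) - q| := by
      have := Int.one_le_abs h6
      exact_mod_cast this
    have hl2 : (0 : ℝ) < lam (v + 1) := by exact_mod_cast hpos (v + 1)
    have h8 : |((z : ℝ) - q) * lam (v + 1)| ≤ |(S0 : ℝ) + c v * lam v - (z - q) * lam (v + 1)|
        + |(S0 : ℝ) + c v * lam v| := by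
      have := abs_sub ((S0 : ℝ) + c v * lam v) ((S0 : ℝ) + c v * lam v - (z - q) * lam (v + 1))
      have e : (S0 : ℝ) + c v * lam v - ((S0 : ℝ) + c v * lam v - (z - q) * lam (v + 1))
          = (z - q) * lam (v + 1) := by ring
      rw [e] at this
      linarith
    rw [abs_mul, abs_of_pos hl2] at h8
    nlinarith

end PS75
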